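import Mathlib
import Pool.Prelude.Def_F_c31e40fa
import Pool.Agent.H637R4.PO.Fin

set_option autoImplicit false

open Filter Topology MeasureTheory Set Metric N62a1eb23

namespace Pool.Agent.Results.MP_1365a2_an.DimensionDrop

open Pool.Agent.H713R2 Pool.Agent.H713R2.AR Pool.Agent.H637R4.PO

/-- Multibrot parameters with polynomial decay of the areas of the sublevel sets of the escape rate
(at all scales, with exponent `α`) form a set of dimension less than `2`. -/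
theorem result :
    ∀ α : ℝ, 0 < α → ∃ ε : ℝ, 0 < ε ∧ ∀ d : ℕ, 3 ≤ d → 
      (∀ C : ℝ, 0 < C → ∃ K : ℝ, ∀ n : ℕ, ∃ T : Finset ℂ,
        (T.card : ℝ) ≤ K * (2 : ℝ) ^ ((2 - ε) * n) ∧
        ∀ c ∈ multibrotSet d, (∀ s ∈ Ioc (0 : ℝ) 1,
          volume {z : ℂ | green d c z ≤ s} ≤ ENNReal.ofReal (C * s ^ α)) →
          ∃ x ∈ T, dist c x ≤ (1 / 2 : ℝ) ^ n) ∧
      dimH {c : ℂ | c ∈ multibrotSet d ∧ ∃ C : ℝ, ∀ s ∈ Ioc (0 : ℝ) 1,
        volume {z : ℂ | green d c z ≤ s} ≤ ENNReal.ofReal (C * s ^ α)} ≤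
          ENNReal.ofReal (2 - ε) := by
  intro α hα
  obtain ⟨ε, hε, h⟩ := f_DIM α hα
  refine ⟨ε, hε, ?_⟩
  intro d hd
  obtain ⟨h1, h2⟩ := h d (by omega)
  constructor
  · intro C hC
    obtain ⟨K, _, h3⟩ := h1 C hC
    refine ⟨K, fun n => ?_⟩
    obtain ⟨T, hT, h4⟩ := h3 n
    refine ⟨T, hT, fun c hc hs => h4 c hc fun s hs' => ?_⟩
    exact ENNReal.toReal_le_of_le_ofReal
      (mul_nonneg hC.le (Real.rpow_nonneg hs'.1.le _)) (hs s hs')
  · refine (dimH_mono ?_).trans h2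
    rintro c ⟨hc, C, hC⟩
    refine ⟨hc, |C|, fun s hs => ?_⟩
    refine ENNReal.toReal_le_of_le_ofReal
      (mul_nonneg (abs_nonneg C) (Real.rpow_nonneg hs.1.le _)) ((hC s hs).trans ?_)
    exact ENNReal.ofReal_le_ofReal
      (mul_le_mul_of_nonneg_right (le_abs_self C) (Real.rpow_nonneg hs.1.le _))

end Pool.Agent.Results.MP_1365a2_an.DimensionDrop
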